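import Mathlib
import Pool.Agent.Helper75.DGMatrix

set_option autoImplicit false

open scoped TensorProduct
open Pool.Agent.Helper75.DG

namespace Pool.Agent.Results.MP_b9a9ca_gt.NoEvenRing

universe v

/-- The weights of the graded matrix ring `M_{2|1}`. -/
def wt : Fin 3 → ℤ := ![0, 0, 1]

/-- The graded matrix ring `M_{2|1}(𝔽₂)`, i.e. the endomorphism DG ring of `𝔽₂ ⊕ 𝔽₂ ⊕ 𝔽₂[1]`. -/
noncomputable def R₀ : DGRing.{0} := matDG (ZMod 2) wt

lemma Bc_eq_bot (i : ZMod 2) : Bc (DGModule.self R₀) i = ⊥ := by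
  rw [eq_bot_iff]
  rintro x ⟨⟨y, hy⟩, -⟩
  exact hy.symm

lemma finite_R₀ : Finite R₀.A := by
  change Finite (Matrix (Fin 3) (Fin 3) (ZMod 2))
  infer_instance

lemma card_R₀ : Nat.card (DGModule.self R₀).M = 512 := by
  change Nat.card (Matrix (Fin 3) (Fin 3) (ZMod 2)) = 512
  unfold Matrix
  simp [ZMod.card]

/-- The two parity parts are complementary. -/
noncomputable def parEquiv :
    (DGModule.self R₀).M ≃ Zc (DGModule.self R₀) 0 × Zc (DGModule.self R₀) 1 where
  toFun x := (⟨par _ 0 x, rfl, par_par _ _ _⟩, ⟨par _ 1 x, rfl, par_par _ _ _⟩)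
  invFun p := (p.1 : (DGModule.self R₀).M) + (p.2 : (DGModule.self R₀).M)
  left_inv x := par_add_par (DGModule.self R₀) 0 x
  right_inv := by
    rintro ⟨⟨x, hx1, hx2⟩, ⟨y, hy1, hy2⟩⟩
    have h01 : par (DGModule.self R₀) 1 x = 0 := by
      have h := par_add_par (DGModule.self R₀) 0 x
      rw [hx2, show (0 : ZMod 2) + 1 = 1 from rfl] at h
      exact left_eq_add.1 h.symm
    have h10 : par (DGModule.self R₀) 0 y = 0 := by
      have h := par_add_par (DGModule.self R₀) 1 y
      rw [hy2, show (1 : ZMod 2) + 1 = 0 from rfl] at h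
      exact left_eq_add.1 h.symm
    refine Prod.ext (Subtype.ext ?_) (Subtype.ext ?_)
    · change par (DGModule.self R₀) 0 (x + y) = x
      rw [map_add, hx2, h10, add_zero]
    · change par (DGModule.self R₀) 1 (x + y) = y
      rw [map_add, hy2, h01, zero_add]

lemma hc_mul : hc (DGModule.self R₀) 0 * hc (DGModule.self R₀) 1 = 512 := by
  unfold hc
  rw [Bc_eq_bot, Bc_eq_bot, AddSubgroup.relIndex_bot_left, AddSubgroup.relIndex_bot_left,
    ← card_R₀, Nat.card_congr parEquiv, Nat.card_prod]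

lemma hc_R₀ (i : ZMod 2) : hc (DGModule.self R₀) i ≠ 0 := by
  have h := hc_mul
  have h0 : hc (DGModule.self R₀) 0 ≠ 0 := by
    intro h0
    rw [h0, zero_mul] at h
    omega
  have h1 : hc (DGModule.self R₀) 1 ≠ 0 := by
    intro h1
    rw [h1, mul_zero] at h
    omega
  revert i
  intro i
  fin_cases i
  · exact h0
  · exact h1

lemma chi_R₀ : chi (DGModule.self R₀) ≠ 0 := by
  intro h
  unfold chi at h
  have h0 : (0 : ℝ) < hc (DGModule.self R₀) 0 := by
    exact_mod_cast Nat.pos_of_ne_zero (hc_R₀ 0)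
  have h1 : (0 : ℝ) < hc (DGModule.self R₀) 1 := by
    exact_mod_cast Nat.pos_of_ne_zero (hc_R₀ 1)
  have h2 := Real.log_injOn_pos (Set.mem_Ioi.2 h0) (Set.mem_Ioi.2 h1) (sub_eq_zero.1 h)
  have h3 : hc (DGModule.self R₀) 0 = hc (DGModule.self R₀) 1 := by exact_mod_cast h2
  have h4 := hc_mul
  rw [← h3] at h4
  -- `512` is not a square
  have h5 : hc (DGModule.self R₀) 0 < 23 := by
    by_contra hlt
    push Not at hlt
    have : 23 * 23 ≤ hc (DGModule.self R₀) 0 * hc (DGModule.self R₀) 0 := Nat.mul_le_mul hlt hlt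
    omega
  generalize hc (DGModule.self R₀) 0 = m at h4 h5
  interval_cases m <;> omega

/-- **Negative answer to Q1.** There is a differential graded ring `R` (i.e. an `𝔼₁`-`ℤ`-algebra)
whose unit `[R]` is nonzero in `K₀(R) ⊗ ℚ`, such that every ring `B` which receives a ring
homomorphism from the homology (= homotopy) ring `H_*(R)` killing all classes of odd degree is the
zero ring. In particular no nonzero ring graded in even degrees receives a homomorphism of graded
rings from `H_*(R)`. -/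
theorem result :
    ∃ R : DGRing.{0}, (unitClass R ⊗ₜ[ℤ] (1 : ℚ) : K0 R ⊗[ℤ] ℚ) ≠ 0 ∧
      ∀ (B : Type v) [Ring B] (φ : R.A → B), InducesRingHomOnHomology R φ →
        (∀ (n : ℤ) (a : R.A), Odd n → a ∈ R.gr n → R.d a = 0 → φ a = 0) → Subsingleton B := by
  refine ⟨R₀, unit_ne_zero hc_R₀ chi_R₀, ?_⟩
  intro B _ φ hφ hodd
  -- the induced map on matrices
  let ψ : Matrix (Fin 3) (Fin 3) (ZMod 2) → B := φ
  have hadd : ∀ X Y, ψ (X + Y) = ψ X + ψ Y := fun X Y => hφ.map_add X Y rfl rfl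
  have hmul : ∀ X Y, ψ (X * Y) = ψ X * ψ Y := fun X Y => hφ.map_mul X Y rfl rfl
  have hone : ψ 1 = 1 := hφ.map_one
  have hzero : ∀ i j, Odd (wt i - wt j) → ψ (Matrix.single i j 1) = 0 := fun i j hij =>
    hodd _ _ hij (single_mem_matGr wt i j (1 : ZMod 2)) rfl
  have h02 : ψ (Matrix.single 0 2 1) = 0 := hzero 0 2 (by decide)
  have h12 : ψ (Matrix.single 1 2 1) = 0 := hzero 1 2 (by decide)
  have h20 : ψ (Matrix.single 2 0 1) = 0 := hzero 2 0 (by decide)
  have hsum : (1 : Matrix (Fin 3) (Fin 3) (ZMod 2)) =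
      Matrix.single 0 2 1 * Matrix.single 2 0 1 + Matrix.single 1 2 1 * Matrix.single 2 1 1 +
        Matrix.single 2 0 1 * Matrix.single 0 2 1 := by
    decide
  have h1 : (1 : B) = 0 := by
    rw [← hone, hsum, hadd, hadd, hmul, hmul, hmul, h02, h12, h20]
    simp
  exact subsingleton_of_zero_eq_one h1.symm

end Pool.Agent.Results.MP_b9a9ca_gt.NoEvenRing
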